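import Mathlib

/-!
# Conformal metrics on the plane with curvature at least one and arbitrarily large finite area

The example is `u (x, y) = - log (cosh x) - ε y²`.
-/

open MeasureTheory Real Filter

namespace Pool.Agent.Results.MP_3ddb5a_an.LargeArea

/-- the example -/
noncomputable def uu (ε : ℝ) (x : EuclideanSpace ℝ (Fin 2)) : ℝ :=
  -Real.log (Real.cosh (x 0)) - ε * x 1 ^ 2

/-- coordinates -/
noncomputable def pr (i : Fin 2) : EuclideanSpace ℝ (Fin 2) →L[ℝ] ℝ := EuclideanSpace.proj i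

lemma pr_apply (i : Fin 2) (x : EuclideanSpace ℝ (Fin 2)) : pr i x = x i := rfl

lemma hasFDerivAt_pr (i : Fin 2) (x : EuclideanSpace ℝ (Fin 2)) :
    HasFDerivAt (fun x : EuclideanSpace ℝ (Fin 2) => x i) (pr i) x := (pr i).hasFDerivAt

lemma hasFDerivAt_uu (ε : ℝ) (x : EuclideanSpace ℝ (Fin 2)) :
    HasFDerivAt (uu ε) ((-(Real.sinh (x 0) * (Real.cosh (x 0))⁻¹)) • pr 0 +
      (-(2 * ε * x 1)) • pr 1) x := by
  have h0 := hasFDerivAt_pr 0 x
  have h1 := hasFDerivAt_pr 1 x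
  have hc : HasDerivAt (fun t => Real.log (Real.cosh t)) (Real.sinh (x 0) / Real.cosh (x 0)) (x 0) :=
    (Real.hasDerivAt_cosh (x 0)).log (Real.cosh_pos _).ne'
  have h2' := hc.comp_hasFDerivAt x h0
  have h2 : HasFDerivAt (fun x : EuclideanSpace ℝ (Fin 2) => Real.log (Real.cosh (x 0)))
      ((Real.sinh (x 0) / Real.cosh (x 0)) • pr 0) x := h2'
  have h3 : HasFDerivAt (fun x : EuclideanSpace ℝ (Fin 2) => x 1 * x 1) _ x := h1.fun_mul h1
  have h4 : HasFDerivAt (fun x : EuclideanSpace ℝ (Fin 2) =>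
      -Real.log (Real.cosh (x 0)) - ε * (x 1 * x 1)) _ x := h2.neg.sub (h3.const_mul ε)
  have h5 : uu ε = fun x : EuclideanSpace ℝ (Fin 2) =>
      -Real.log (Real.cosh (x 0)) - ε * (x 1 * x 1) := by
    funext x; unfold uu; rw [sq]
  rw [h5]
  refine h4.congr_fderiv ?_
  ext v
  simp only [sub_apply, neg_apply, smul_apply, add_apply, smul_eq_mul, pr_apply]
  ring

lemma contDiff_uu (ε : ℝ) : ContDiff ℝ 2 (uu ε) := by
  unfold uu
  have h0 : ContDiff ℝ 2 (fun x : EuclideanSpace ℝ (Fin 2) => x 0) := (pr 0).contDiff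
  have h1 : ContDiff ℝ 2 (fun x : EuclideanSpace ℝ (Fin 2) => x 1) := (pr 1).contDiff
  have h2 : ContDiff ℝ 2 (fun x : EuclideanSpace ℝ (Fin 2) => Real.cosh (x 0)) :=
    Real.contDiff_cosh.comp h0
  exact ((h2.log fun x => (Real.cosh_pos _).ne').neg).sub (contDiff_const.mul (h1.pow 2))

lemma hasFDerivAt_fderiv_uu (ε : ℝ) (x : EuclideanSpace ℝ (Fin 2)) :
    HasFDerivAt (fderiv ℝ (uu ε))
      (((-((Real.cosh (x 0) ^ 2)⁻¹)) • pr 0).smulRight (pr 0) +
        ((-(2 * ε)) • pr 1).smulRight (pr 1)) x := by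
  have hf : fderiv ℝ (uu ε) = fun x : EuclideanSpace ℝ (Fin 2) =>
      (-(Real.sinh (x 0) * (Real.cosh (x 0))⁻¹)) • pr 0 + (-(2 * ε * x 1)) • pr 1 := by
    funext x; exact (hasFDerivAt_uu ε x).fderiv
  rw [hf]
  have hne := (Real.cosh_pos (x 0)).ne'
  have hc : HasDerivAt (fun t => -(Real.sinh t * (Real.cosh t)⁻¹))
      (-((Real.cosh (x 0) ^ 2)⁻¹)) (x 0) := by
    have h := ((Real.hasDerivAt_sinh (x 0)).fun_mul ((Real.hasDerivAt_cosh (x 0)).fun_inv hne)).neg
    refine h.congr_deriv ?_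
    have h2 := Real.cosh_sq (x 0)
    field_simp
    linarith
  have h0 := hasFDerivAt_pr 0 x
  have h1 := hasFDerivAt_pr 1 x
  have h2' := hc.comp_hasFDerivAt x h0
  have h2 : HasFDerivAt (fun x : EuclideanSpace ℝ (Fin 2) =>
      -(Real.sinh (x 0) * (Real.cosh (x 0))⁻¹)) ((-((Real.cosh (x 0) ^ 2)⁻¹)) • pr 0) x := h2'
  have h3 : HasFDerivAt (fun x : EuclideanSpace ℝ (Fin 2) => -(2 * ε * x 1)) _ x :=
    (h1.const_mul (2 * ε)).neg
  have h4 := (h2.smul_const (pr 0)).add (h3.smul_const (pr 1))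
  refine h4.congr_fderiv ?_
  ext v w
  simp only [add_apply, neg_apply, smul_apply, ContinuousLinearMap.smulRight_apply, smul_eq_mul,
    pr_apply]
  ring

lemma laplacian_uu (ε : ℝ) (x : EuclideanSpace ℝ (Fin 2)) :
    Laplacian.laplacian (uu ε) x = -((Real.cosh (x 0) ^ 2)⁻¹) - 2 * ε := by
  rw [InnerProductSpace.laplacian_eq_iteratedFDeriv_orthonormalBasis (uu ε)
    (EuclideanSpace.basisFun (Fin 2) ℝ)]
  simp only [Fin.sum_univ_two]
  simp only [iteratedFDeriv_two_apply, (hasFDerivAt_fderiv_uu ε x).fderiv]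
  simp only [add_apply, smul_apply, ContinuousLinearMap.smulRight_apply, smul_eq_mul,
    pr_apply]
  simp
  ring

lemma exp_uu (ε : ℝ) (x : EuclideanSpace ℝ (Fin 2)) :
    Real.exp (2 * uu ε x) = (Real.cosh (x 0) ^ 2)⁻¹ * Real.exp (-(2 * ε) * x 1 ^ 2) := by
  unfold uu
  have h : 2 * (-Real.log (Real.cosh (x 0)) - ε * x 1 ^ 2) =
      -(Real.log (Real.cosh (x 0)) + Real.log (Real.cosh (x 0))) + -(2 * ε) * x 1 ^ 2 := by ring
  rw [h, Real.exp_add, Real.exp_neg, Real.exp_add, Real.exp_log (Real.cosh_pos _),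
    ← sq]

lemma ineq_uu {ε : ℝ} (hε : 0 < ε) (x : EuclideanSpace ℝ (Fin 2)) :
    Laplacian.laplacian (uu ε) x + Real.exp (2 * uu ε x) ≤ 0 := by
  rw [laplacian_uu, exp_uu]
  have h1 : Real.exp (-(2 * ε) * x 1 ^ 2) ≤ 1 := by
    rw [Real.exp_le_one_iff]
    have := sq_nonneg (x 1)
    nlinarith
  have h2 : 0 < (Real.cosh (x 0) ^ 2)⁻¹ := by
    have := Real.cosh_pos (x 0)
    positivity
  nlinarith

/-- the coordinate equivalence -/
noncomputable def eqv : EuclideanSpace ℝ (Fin 2) ≃ᵐ ℝ × ℝ :=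
  (MeasurableEquiv.toLp 2 (Fin 2 → ℝ)).symm.trans MeasurableEquiv.finTwoArrow

lemma eqv_apply (x : EuclideanSpace ℝ (Fin 2)) : eqv x = (x 0, x 1) := rfl

lemma mp_eqv : MeasurePreserving eqv volume volume :=
  (EuclideanSpace.volume_preserving_symm_measurableEquiv_toLp (Fin 2)).trans
    (volume_preserving_finTwoArrow ℝ)

lemma integrable_sech : Integrable (fun t : ℝ => (Real.cosh t ^ 2)⁻¹) := by
  refine integrable_inv_one_add_sq.mono' ?_ (ae_of_all _ fun t => ?_)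
  · exact ((Real.continuous_cosh.pow 2).inv₀ fun t =>
      pow_ne_zero 2 (Real.cosh_pos t).ne').aestronglyMeasurable
  · have hc := Real.cosh_pos t
    rw [Real.norm_of_nonneg (by positivity)]
    apply inv_anti₀ (by positivity)
    rw [Real.cosh_sq]
    have : t ^ 2 ≤ Real.sinh t ^ 2 := by
      rcases le_total 0 t with h | h
      · have := Real.self_le_sinh_iff.mpr h
        nlinarith
      · have h2 := Real.self_le_sinh_iff.mpr (neg_nonneg.mpr h)
        rw [Real.sinh_neg] at h2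
        nlinarith
    linarith

lemma integral_sech_pos : 0 < ∫ t : ℝ, (Real.cosh t ^ 2)⁻¹ := by
  rw [integral_pos_iff_support_of_nonneg _ integrable_sech]
  · have : Function.support (fun t : ℝ => (Real.cosh t ^ 2)⁻¹) = Set.univ := by
      ext t
      have := Real.cosh_pos t
      simp [this.ne']
    rw [this]
    simp
  · intro t
    have := Real.cosh_pos t
    simp only [Pi.zero_apply]
    positivity

lemma area {ε : ℝ} (hε : 0 < ε) :
    Integrable (fun x => Real.exp (2 * uu ε x)) ∧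
      ∫ x, Real.exp (2 * uu ε x) = (∫ t : ℝ, (Real.cosh t ^ 2)⁻¹) * √(π / (2 * ε)) := by
  have hg : Integrable (fun t : ℝ => Real.exp (-(2 * ε) * t ^ 2)) :=
    integrable_exp_neg_mul_sq (by positivity)
  have h1 : Integrable (fun z : ℝ × ℝ => (Real.cosh z.1 ^ 2)⁻¹ * Real.exp (-(2 * ε) * z.2 ^ 2))
      (volume.prod volume) := integrable_sech.mul_prod hg
  have h2 : (fun x => Real.exp (2 * uu ε x)) =
      (fun z : ℝ × ℝ => (Real.cosh z.1 ^ 2)⁻¹ * Real.exp (-(2 * ε) * z.2 ^ 2)) ∘ eqv := by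
    funext x
    rw [exp_uu]
    rfl
  refine ⟨?_, ?_⟩
  · rw [h2]
    exact (mp_eqv.integrable_comp_emb eqv.measurableEmbedding).mpr h1
  · have h3 : ∫ x, Real.exp (2 * uu ε x) =
        ∫ x, ((fun z : ℝ × ℝ => (Real.cosh z.1 ^ 2)⁻¹ * Real.exp (-(2 * ε) * z.2 ^ 2)) (eqv x)) := by
      rw [h2]; rfl
    rw [h3, mp_eqv.integral_comp eqv.measurableEmbedding
      (fun z : ℝ × ℝ => (Real.cosh z.1 ^ 2)⁻¹ * Real.exp (-(2 * ε) * z.2 ^ 2))]
    have h4 := integral_prod_mul (μ := (volume : Measure ℝ)) (ν := (volume : Measure ℝ))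
      (fun t : ℝ => (Real.cosh t ^ 2)⁻¹) (fun t : ℝ => Real.exp (-(2 * ε) * t ^ 2))
    refine Eq.trans h4 ?_
    rw [integral_gaussian]

/-- For every bound `B` there is a `C²` function `u` on the plane with `Δ u + e^{2u} ≤ 0`
everywhere, i.e. `g = e^{2u} δ` has Gaussian curvature at least one, whose area `∫ e^{2u}` is
finite and larger than `B`. -/
theorem result :
    ∀ B : ℝ, ∃ u : EuclideanSpace ℝ (Fin 2) → ℝ, ContDiff ℝ 2 u ∧
      (∀ x, Laplacian.laplacian u x + Real.exp (2 * u x) ≤ 0) ∧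
      Integrable (fun x => Real.exp (2 * u x)) ∧ B < ∫ x, Real.exp (2 * u x) := by
  intro B
  set I := ∫ t : ℝ, (Real.cosh t ^ 2)⁻¹ with hI
  have hIpos : 0 < I := integral_sech_pos
  have hr : 0 < (|B| + 1) / I := div_pos (by positivity) hIpos
  have hε : 0 < π / (2 * ((|B| + 1) / I) ^ 2) := by positivity
  refine ⟨uu (π / (2 * ((|B| + 1) / I) ^ 2)), contDiff_uu _, ineq_uu hε, (area hε).1, ?_⟩
  rw [(area hε).2]
  have h1 : π / (2 * (π / (2 * ((|B| + 1) / I) ^ 2))) = ((|B| + 1) / I) ^ 2 := by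
    have := Real.pi_pos
    field_simp
  rw [h1, Real.sqrt_sq hr.le, ← hI]
  have h2 : I * ((|B| + 1) / I) = |B| + 1 := by field_simp
  rw [h2]
  have := le_abs_self B
  linarith

end Pool.Agent.Results.MP_3ddb5a_an.LargeArea
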